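import Pool.Agent.BCS.Stmts

/-!
Squad BCS (MP_fb4904_gt), row MIN: the minimum over the torus.
-/

open scoped ContDiff Topology ComplexConjugate
open Set MeasureTheory

namespace Pool.Agent.BCS.H80

open Pool.Agent.BCS

theorem per_all {m : ℕ} {χ : ℂ → (Fin m → ℝ) → ℝ} (h : SmP χ) (z : ℂ) (t : Fin m → ℝ) :
    χ z (fun i => Int.fract (t i)) = χ z t := by
  classical
  have h1 : ∀ S : Finset (Fin m), Function.Periodic (χ z)
      (∑ i ∈ S, ⌊t i⌋ • (Pi.single i (1 : ℝ) : Fin m → ℝ)) := by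
    intro S
    induction S using Finset.induction_on with
    | empty =>
      intro x
      simp
    | insert a S ha ih =>
      rw [Finset.sum_insert ha]
      have h2 : Function.Periodic (χ z) (Pi.single a (1 : ℝ) : Fin m → ℝ) :=
        fun x => h.per z x a
      exact (h2.zsmul ⌊t a⌋).add_period ih
  have h3 := h1 Finset.univ (fun i => Int.fract (t i))
  rw [← h3]
  congr 1
  funext i
  rw [Pi.add_apply, Finset.sum_apply, Finset.sum_eq_single i]
  · simp only [Pi.smul_apply, Pi.single_eq_same, zsmul_eq_mul, mul_one]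
    exact Int.fract_add_floor (t i)
  · intro j _ hj
    simp only [Pi.smul_apply, zsmul_eq_mul]
    rw [Pi.single_eq_of_ne (Ne.symm hj), mul_zero]
  · intro hi
    exact absurd (Finset.mem_univ i) hi

theorem fract_mem {m : ℕ} (t : Fin m → ℝ) :
    (fun i => Int.fract (t i)) ∈ Icc (0 : Fin m → ℝ) 1 :=
  ⟨fun i => Int.fract_nonneg (t i), fun i => (Int.fract_lt_one (t i)).le⟩

theorem range_eq {m : ℕ} {χ : ℂ → (Fin m → ℝ) → ℝ} (h : SmP χ) (z : ℂ) :
    range (χ z) = χ z '' Icc (0 : Fin m → ℝ) 1 := by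
  ext y
  constructor
  · rintro ⟨t, rfl⟩
    exact ⟨_, fract_mem t, per_all h z t⟩
  · rintro ⟨t, _, rfl⟩
    exact ⟨t, rfl⟩

theorem cont_joint {m : ℕ} {χ : ℂ → (Fin m → ℝ) → ℝ} (h : SmP χ) :
    Continuous (fun p : ℂ × (Fin m → ℝ) => χ p.1 p.2) := h.smooth.continuous

theorem min : MinStmt := by
  intro m χ h
  have hc : Continuous (fun p : ℂ × (Fin m → ℝ) => χ p.1 p.2) := cont_joint h
  have hcz : ∀ z, Continuous (χ z) := fun z =>
    hc.comp (Continuous.prodMk continuous_const continuous_id)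
  have hK : IsCompact (Icc (0 : Fin m → ℝ) 1) := isCompact_Icc
  have hmu : ∀ z, mu χ z = sInf (χ z '' Icc (0 : Fin m → ℝ) 1) := by
    intro z
    rw [← range_eq h z]
    rfl
  have hne : (Icc (0 : Fin m → ℝ) 1).Nonempty := ⟨0, le_refl _, fun i => zero_le_one⟩
  have hmin : ∀ z, ∃ t, ∀ s, χ z t ≤ χ z s := by
    intro z
    obtain ⟨t, ht, hmin⟩ := hK.exists_isMinOn hne (hcz z).continuousOn
    refine ⟨t, fun s => ?_⟩
    rw [← per_all h z s]
    exact hmin (fract_mem s)
  have hbdd : ∀ z, BddBelow (range (χ z)) := by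
    intro z
    obtain ⟨t, ht⟩ := hmin z
    exact ⟨χ z t, by rintro _ ⟨s, rfl⟩; exact ht s⟩
  refine ⟨?_, fun z t => ciInf_le (hbdd z) t, fun z => ?_⟩
  · have h1 : Continuous fun z => sInf (χ z '' Icc (0 : Fin m → ℝ) 1) :=
      hK.continuous_sInf hc
    exact h1.congr (fun z => (hmu z).symm)
  · obtain ⟨t, ht⟩ := hmin z
    exact ⟨t, le_antisymm (le_ciInf ht) (ciInf_le (hbdd z) t)⟩

end Pool.Agent.BCS.H80
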