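import Pool.Agent.BCS.Stmts3

/-!
# Squad BCS, row SC3
-/

set_option autoImplicit false

noncomputable section

open scoped ContDiff Topology
open Set

namespace Pool.Agent.BCS.H80

open Pool.Agent.SecondKind (Coord pd inv christoffel ricci)
open Pool.Agent.RLim.H58 (dg)

variable {m : ℕ}

/-! ### the plane -/

theorem dir_add {f g : ℂ → ℝ} (hf : ContDiff ℝ ∞ f) (hg : ContDiff ℝ ∞ g) (a : ℝ) (w : ℂ) (z : ℂ) :
    fderiv ℝ (fun z => f z + a * g z) z w = fderiv ℝ f z w + a * fderiv ℝ g z w := by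
  have h1 : HasFDerivAt f (fderiv ℝ f z) z := ((hf.differentiable (by simp)) _).hasFDerivAt
  have h2 : HasFDerivAt g (fderiv ℝ g z) z := ((hg.differentiable (by simp)) _).hasFDerivAt
  have h4 := h1.add (h2.const_mul a)
  have h5 : fderiv ℝ (fun z => f z + a * g z) z = _ := h4.fderiv
  rw [h5]
  rfl

theorem dir_smooth {f : ℂ → ℝ} (hf : ContDiff ℝ ∞ f) (w : ℂ) :
    ContDiff ℝ ∞ (fun z => fderiv ℝ f z w) := by
  have h1 : ContDiff ℝ ∞ (fderiv ℝ f) := hf.fderiv_right (m := ∞) (by simp)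
  exact h1.clm_apply contDiff_const

theorem dx_add {f g : ℂ → ℝ} (hf : ContDiff ℝ ∞ f) (hg : ContDiff ℝ ∞ g) (a : ℝ) :
    dx (fun z => f z + a * g z) = fun z => dx f z + a * dx g z :=
  funext fun z => dir_add hf hg a 1 z

theorem dy_add {f g : ℂ → ℝ} (hf : ContDiff ℝ ∞ f) (hg : ContDiff ℝ ∞ g) (a : ℝ) :
    dy (fun z => f z + a * g z) = fun z => dy f z + a * dy g z :=
  funext fun z => dir_add hf hg a Complex.I z

theorem lap_add {f g : ℂ → ℝ} (hf : ContDiff ℝ ∞ f) (hg : ContDiff ℝ ∞ g) (a : ℝ) (z : ℂ) :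
    lap (fun z => f z + a * g z) z = lap f z + a * lap g z := by
  unfold lap
  rw [dx_add hf hg, dy_add hf hg]
  have h1 : dx (fun z => dx f z + a * dx g z) z = dx (dx f) z + a * dx (dx g) z :=
    dir_add (dir_smooth hf 1) (dir_smooth hg 1) a 1 z
  have h2 : dy (fun z => dy f z + a * dy g z) z = dy (dy f) z + a * dy (dy g) z :=
    dir_add (dir_smooth hf Complex.I) (dir_smooth hg Complex.I) a Complex.I z
  rw [h1, h2]
  ring

/-! ### the fibres -/

theorem pd_aff {v : (Fin m → ℝ) → ℝ} (hv : ContDiff ℝ ∞ v) (c a : ℝ) (i : Fin m) :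
    pd i (fun t => c + a * v t) = fun t => a * pd i v t := by
  funext t
  have h2 : HasFDerivAt v (fderiv ℝ v t) t := ((hv.differentiable (by simp)) _).hasFDerivAt
  have h4 := (h2.const_mul a).const_add c
  unfold pd
  have h5 : fderiv ℝ (fun t => c + a * v t) t = _ := h4.fderiv
  rw [h5]
  rfl

theorem pd_mul {v : (Fin m → ℝ) → ℝ} (hv : ContDiff ℝ ∞ v) (a : ℝ) (i : Fin m) :
    pd i (fun t => a * v t) = fun t => a * pd i v t := by
  have h := pd_aff hv 0 a i
  simpa using h

theorem pd_smooth {v : (Fin m → ℝ) → ℝ} (hv : ContDiff ℝ ∞ v) (i : Fin m) :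
    ContDiff ℝ ∞ (pd i v) := by
  have h1 : ContDiff ℝ ∞ (fderiv ℝ v) := hv.fderiv_right (m := ∞) (by simp)
  exact h1.clm_apply contDiff_const

theorem lapM_aff (k : Coord m) {v : (Fin m → ℝ) → ℝ} (hv : ContDiff ℝ ∞ v) (c a : ℝ)
    (t : Fin m → ℝ) : lapM k (fun t => c + a * v t) t = a * lapM k v t := by
  unfold lapM
  rw [Finset.mul_sum]
  refine Finset.sum_congr rfl fun i _ => ?_
  rw [Finset.mul_sum]
  refine Finset.sum_congr rfl fun j _ => ?_
  rw [pd_aff hv, pd_mul (pd_smooth hv j)]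
  have h : (∑ l, christoffel k l i j t * pd l (fun t => c + a * v t) t) =
      a * ∑ l, christoffel k l i j t * pd l v t := by
    rw [Finset.mul_sum]
    refine Finset.sum_congr rfl fun l _ => ?_
    rw [pd_aff hv]
    ring
  rw [h]
  ring

theorem gip_aff (k : Coord m) {v : (Fin m → ℝ) → ℝ} (hv : ContDiff ℝ ∞ v) (c a c' b : ℝ)
    (t : Fin m → ℝ) :
    gip k (fun t => c + a * v t) (fun t => c' + b * v t) t = a * b * gip k v v t := by
  unfold gip
  rw [Finset.mul_sum]
  refine Finset.sum_congr rfl fun i _ => ?_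
  rw [Finset.mul_sum]
  refine Finset.sum_congr rfl fun j _ => ?_
  rw [pd_aff hv, pd_aff hv]
  ring

/-! ### the family of fibre metrics -/

theorem slt {χ : ℂ → (Fin m → ℝ) → ℝ} (h : ContDiff ℝ ∞ (fun p : ℂ × (Fin m → ℝ) => χ p.1 p.2))
    (z : ℂ) : ContDiff ℝ ∞ (χ z) :=
  h.comp (contDiff_const.prodMk contDiff_id)

theorem slz {χ : ℂ → (Fin m → ℝ) → ℝ} (h : ContDiff ℝ ∞ (fun p : ℂ × (Fin m → ℝ) => χ p.1 p.2))
    (t : Fin m → ℝ) : ContDiff ℝ ∞ (fun z => χ z t) :=
  h.comp (contDiff_id.prodMk contDiff_const)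

theorem met_of {k : ℂ → Coord m} (hk : FibM k) (z : ℂ) : Met (k z) where
  smooth i j := (hk.smooth i j).comp (contDiff_const.prodMk contDiff_id)
  symm t i j := hk.symm z t i j
  pos t v hv := hk.pos z t v hv

theorem fib_cfm {k : ℂ → Coord m} (hk : FibM k) {χ : ℂ → (Fin m → ℝ) → ℝ} (hχ : SmP χ) (β : ℝ) :
    FibM (fun z => cfm (fun t => β * χ z t) (k z)) where
  smooth i j := by
    have h1 : ContDiff ℝ ∞ (fun p : ℂ × (Fin m → ℝ) => Real.exp (2 * (β * χ p.1 p.2))) :=
      (contDiff_const.mul (contDiff_const.mul hχ.smooth)).exp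
    exact h1.mul (hk.smooth i j)
  per z t l := by
    funext i j
    show Real.exp (2 * (β * χ z (t + Pi.single l 1))) * k z (t + Pi.single l 1) i j =
      Real.exp (2 * (β * χ z t)) * k z t i j
    rw [hχ.per z t l, hk.per z t l]
  symm z t i j := by
    unfold cfm
    rw [hk.symm z t i j]
  pos z t v hv := by
    have h1 := hk.pos z t v hv
    have h2 : (∑ i, ∑ j, cfm (fun t => β * χ z t) (k z) t i j * v i * v j) =
        Real.exp (2 * (β * χ z t)) * ∑ i, ∑ j, k z t i j * v i * v j := by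
      rw [Finset.mul_sum]
      refine Finset.sum_congr rfl fun i _ => ?_
      rw [Finset.mul_sum]
      refine Finset.sum_congr rfl fun j _ => ?_
      unfold cfm
      ring
    rw [h2]
    exact mul_pos (Real.exp_pos _) h1

theorem lvol_cfm {k : ℂ → Coord m} {F : ℂ → ℝ}
    (hdet : ∀ z t, (Matrix.of (k z t)).det = Real.exp (2 * F z)) (χ : ℂ → (Fin m → ℝ) → ℝ) (β : ℝ)
    (z : ℂ) (t : Fin m → ℝ) :
    lvol (fun z => cfm (fun t => β * χ z t) (k z)) z t = F z + (m * β) * χ z t := by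
  unfold lvol
  have h1 : Matrix.of (cfm (fun t => β * χ z t) (k z) t) =
      Real.exp (2 * (β * χ z t)) • Matrix.of (k z t) := by
    ext i j
    rfl
  rw [h1, Matrix.det_smul, hdet, Fintype.card_fin, ← Real.exp_nat_mul, ← Real.exp_add,
    Real.log_exp]
  ring

theorem sc3_row (blg : BlgStmt) (cnf : CnfStmt) (lcf : LcfStmt) (trj : TrjStmt) : Sc3Stmt := by
  intro m φ F k χ α β hm hφ hF hk hχ hdet y
  have hm' : (1 : ℝ) ≤ m := by exact_mod_cast hm
  set z := pr y with hz
  set t := tl y with ht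
  have hfib := fib_cfm hk hχ β
  have hU : ContDiff ℝ ∞ (fun p : ℂ × (Fin m → ℝ) => φ p.1 + α * χ p.1 p.2) :=
    (hφ.comp contDiff_fst).add (contDiff_const.mul hχ.smooth)
  have e0 := blg m (fun z t => φ z + α * χ z t) (fun z => cfm (fun t => β * χ z t) (k z)) hU hfib y
  have e1 := trj m (fun z => cfm (fun t => β * χ z t) (k z)) hfib z t
  have hχz := slt hχ.smooth z
  have hχt := slz hχ.smooth t
  have hv : ContDiff ℝ ∞ (fun t => β * χ z t) := contDiff_const.mul hχz
  have hw : ContDiff ℝ ∞ (fun t => φ z + α * χ z t) := contDiff_const.add (contDiff_const.mul hχz)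
  have e2 := cnf m (k z) (fun t => β * χ z t) (met_of hk z) hv t
  obtain ⟨e3, e4⟩ := lcf m (k z) (fun t => β * χ z t) (fun t => φ z + α * χ z t) (met_of hk z) hv hw t
  -- the volume
  have l1 : (fun z => lvol (fun z => cfm (fun t => β * χ z t) (k z)) z t) =
      fun z => F z + (m * β) * χ z t := funext fun z => lvol_cfm hdet χ β z t
  have g1 : grad2 (fun z => F z + (m * β) * χ z t) z =
      (dx F z + m * β * dx (fun z => χ z t) z) ^ 2 + (dy F z + m * β * dy (fun z => χ z t) z) ^ 2 := by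
    unfold grad2
    rw [dx_add hF hχt, dy_add hF hχt]
  have a1 : lapM (k z) (fun t => β * χ z t) t = β * lapM (k z) (χ z) t := by
    have := lapM_aff (k z) hχz 0 β t
    simpa using this
  have a2 : gip (k z) (fun t => β * χ z t) (fun t => β * χ z t) t =
      β * β * gip (k z) (χ z) (χ z) t := by
    have := gip_aff (k z) hχz 0 β 0 β t
    simpa using this
  have a3 : lapM (k z) (fun t => φ z + α * χ z t) t = α * lapM (k z) (χ z) t :=
    lapM_aff (k z) hχz (φ z) α t
  have a4 : gip (k z) (fun t => β * χ z t) (fun t => φ z + α * χ z t) t =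
      β * α * gip (k z) (χ z) (χ z) t := by
    have := gip_aff (k z) hχz 0 β (φ z) α t
    simpa using this
  have a5 : gip (k z) (fun t => φ z + α * χ z t) (fun t => φ z + α * χ z t) t =
      α * α * gip (k z) (χ z) (χ z) t := gip_aff (k z) hχz (φ z) α (φ z) α t
  rw [l1, g1] at e1
  rw [a1, a2] at e2
  rw [a3, a4] at e3
  rw [a5] at e4
  have e0' : scal (mt3 φ k χ α β) y =
      Real.exp (-(2 * (φ z + α * χ z t))) * (-2 * lap (fun z => φ z + α * χ z t) z
        - 2 * lap (fun z => lvol (fun z => cfm (fun t => β * χ z t) (k z)) z t) z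
        - grad2 (fun z => lvol (fun z => cfm (fun t => β * χ z t) (k z)) z t) z
        - (1 / 4) * (trq (cfm (fun t => β * χ z t) (k z) t)
            (fun i j => dx (fun z => cfm (fun t => β * χ z t) (k z) t i j) z)
          + trq (cfm (fun t => β * χ z t) (k z) t)
            (fun i j => dy (fun z => cfm (fun t => β * χ z t) (k z) t i j) z)))
      + scal (cfm (fun t => β * χ z t) (k z)) t
      - 4 * lapM (cfm (fun t => β * χ z t) (k z)) (fun t => φ z + α * χ z t) t
      - 6 * gip (cfm (fun t => β * χ z t) (k z)) (fun t => φ z + α * χ z t)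
          (fun t => φ z + α * χ z t) t := e0
  rw [l1, g1, lap_add hφ hχt, lap_add hF hχt, e2, e3, e4] at e0'
  rw [e0']
  unfold sc3
  set TR := trq (cfm (fun t => β * χ z t) (k z) t)
            (fun i j => dx (fun z => cfm (fun t => β * χ z t) (k z) t i j) z)
          + trq (cfm (fun t => β * χ z t) (k z) t)
            (fun i j => dy (fun z => cfm (fun t => β * χ z t) (k z) t i j) z) with hTR
  set G2 := (dx F z + m * β * dx (fun z => χ z t) z) ^ 2 +
    (dy F z + m * β * dy (fun z => χ z t) z) ^ 2 with hG2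
  set A1 := lap φ z
  set A2 := lap F z
  set A3 := lap (fun z => χ z t) z
  set Sk := scal (k z) t
  set Lk := lapM (k z) (χ z) t
  set Gk := gip (k z) (χ z) (χ z) t
  have x1 : Real.exp (2 * φ z + 2 * α * χ z t) * Real.exp (-(2 * (φ z + α * χ z t))) = 1 := by
    rw [← Real.exp_add, ← Real.exp_zero]
    congr 1
    ring
  have x2 : Real.exp (2 * φ z + 2 * α * χ z t) * Real.exp (-(2 * (β * χ z t))) =
      Real.exp (2 * φ z + 2 * (α - β) * χ z t) := by
    rw [← Real.exp_add]
    congr 1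
    ring
  have e1' : G2 ≤ m / 4 * TR := e1
  have y1 : G2 / m ≤ 1 / 4 * TR := by
    rw [div_le_iff₀ (by linarith)]
    linarith
  set E := Real.exp (2 * φ z + 2 * α * χ z t)
  set E1 := Real.exp (-(2 * (φ z + α * χ z t)))
  set V := Real.exp (-(2 * (β * χ z t)))
  set E2 := Real.exp (2 * φ z + 2 * (α - β) * χ z t)
  have lhs : E * (E1 * (-2 * (A1 + α * A3) - 2 * (A2 + m * β * A3) - G2 - 1 / 4 * TR) +
      V * (Sk - 2 * ((m : ℝ) - 1) * (β * Lk) - ((m : ℝ) - 1) * ((m : ℝ) - 2) * (β * β * Gk)) -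
      4 * (V * (α * Lk + ((m : ℝ) - 2) * (β * α * Gk))) - 6 * (V * (α * α * Gk))) =
      (E * E1) * (-2 * (A1 + α * A3) - 2 * (A2 + m * β * A3) - G2 - 1 / 4 * TR) +
      (E * V) * (Sk - 2 * kap3 m α β * Lk - lam3 m α β * Gk) := by
    unfold kap3 lam3
    ring
  rw [lhs, x1, x2]
  have hdiv : ((m : ℝ) + 1) / m * G2 = G2 + G2 / m := by
    field_simp
  rw [hdiv]
  linarith

end Pool.Agent.BCS.H80
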